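import Pool.Agent.Q202.ExtArrow.Defs
import Pool.Agent.Q202.ExtArrow.Example

/-!
# An externally definable Ramsey arrow without a finite witness

The Fraisse structure is the infinite perfect matching, `ā` is a point and `B` is an edge.
-/

namespace Pool.Agent.Results.MP_5814e0_lc.NoFiniteWitness

open FirstOrder FirstOrder.Language Q202.ExtArrow

/-- **Theorem.** There are a countable relational language `L`, a countably infinite
ultrahomogeneous `L`-structure `M`, a finite structure `A` with enumeration `a` and a finite
structure `B`, both in `Age(M)`, such that `M →_ext (B)^a_2` holds but no `C ∈ Age(M)` satisfies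
`C →_ext (B)^a_2`. -/
theorem result :
    ∃ (L : Language.{0, 0}) (_ : L.IsRelational) (_ : Countable L.Symbols)
      (M : Type) (_ : L.Structure M) (_ : Countable M) (_ : Infinite M)
      (_ : L.IsUltrahomogeneous M)
      (n : ℕ) (A : Type) (_ : L.Structure A) (a : Fin n → A) (B : Type) (_ : L.Structure B),
      Function.Bijective a ∧ Nonempty (A ↪[L] M) ∧ Finite B ∧ Nonempty (B ↪[L] M) ∧
      Arrow (L := L) a M B ∧
      ∀ (C : Type) [L.Structure C] [Finite C], Nonempty (C ↪[L] M) →
        ¬ ArrowFrom (L := L) a M C B := by
  refine ⟨Example.Lg, inferInstance, inferInstance, Example.M, inferInstance, inferInstance,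
    inferInstance, Q202.Orb.ultrahomogeneous Example.G, 1, Example.A, inferInstance, Example.a,
    Example.B, inferInstance, Example.a_bijective, ⟨Substructure.subtype _⟩, ?_,
    ⟨Substructure.subtype _⟩, Example.arrow, ?_⟩
  · have : (({((0, false) : Example.M), (0, true)} : Set Example.M)).Finite := by simp
    exact this
  · rintro C _ _ ⟨f⟩
    exact Example.no_arrowFrom C f

end Pool.Agent.Results.MP_5814e0_lc.NoFiniteWitness
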